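import Pool.Agent.Work.MP_7107b3_al.SF.Stmts

/-!
# MP_7107b3_al, block SF, item CR: the crossed homomorphism on the amalgam
-/

set_option autoImplicit false

namespace Pool.Agent.Work.MP_7107b3_al.SF

namespace XCR

section Act

variable {F : Type} [Group F]

theorem act_add (g : F) (v w : F → ℤ) : act g (v + w) = act g v + act g w := by
  funext s
  simp [act]

theorem act_neg (g : F) (v : F → ℤ) : act g (- v) = - act g v := by
  funext s
  simp [act]

theorem act_zero (g : F) : act g (0 : F → ℤ) = 0 := by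
  funext s
  simp [act]

theorem act_one (v : F → ℤ) : act (1 : F) v = v := by
  funext s
  simp [act]

theorem act_mul (g h : F) (v : F → ℤ) : act (g * h) v = act g (act h v) := by
  funext s
  simp [act, mul_assoc]

theorem act_sum {ι : Type} (g : F) (t : Finset ι) (v : ι → F → ℤ) :
    act g (∑ i ∈ t, v i) = ∑ i ∈ t, act g (v i) := by
  funext s
  simp [act, Finset.sum_apply]

end Act

/-- The semidirect product of the functions and the group. -/
@[ext]
structure E (F : Type) where
  v : F → ℤ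
  g : F

variable {F : Type} [Group F]

instance : Mul (E F) := ⟨fun x y => ⟨x.v + act x.g y.v, x.g * y.g⟩⟩
instance : One (E F) := ⟨⟨0, 1⟩⟩
instance : Inv (E F) := ⟨fun x => ⟨- act x.g⁻¹ x.v, x.g⁻¹⟩⟩

theorem mul_v (x y : E F) : (x * y).v = x.v + act x.g y.v := rfl
theorem mul_g (x y : E F) : (x * y).g = x.g * y.g := rfl
theorem one_v : (1 : E F).v = 0 := rfl
theorem one_g : (1 : E F).g = 1 := rfl
theorem inv_v (x : E F) : (x⁻¹).v = - act x.g⁻¹ x.v := rfl
theorem inv_g (x : E F) : (x⁻¹).g = x.g⁻¹ := rfl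

instance : Group (E F) := Group.ofLeftAxioms
  (by
    intro x y z
    refine E.ext ?_ ?_
    · rw [mul_v, mul_v, mul_v, mul_v, mul_g, act_add, act_mul, add_assoc]
    · rw [mul_g, mul_g, mul_g, mul_g, mul_assoc])
  (by
    intro x
    refine E.ext ?_ ?_
    · rw [mul_v, one_v, one_g, act_one, zero_add]
    · rw [mul_g, one_g, one_mul])
  (by
    intro x
    refine E.ext ?_ ?_
    · rw [mul_v, inv_v, inv_g, one_v, neg_add_cancel]
    · rw [mul_g, inv_g, one_g, inv_mul_cancel])

/-- The projection to the group. -/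
def pg : E F →* F where
  toFun x := x.g
  map_one' := rfl
  map_mul' _ _ := rfl

theorem pow_eq (x : E F) (m : ℕ) :
    x ^ m = ⟨∑ j ∈ Finset.range m, act (x.g ^ j) x.v, x.g ^ m⟩ := by
  induction m with
  | zero =>
    refine E.ext ?_ ?_
    · rw [pow_zero]; rfl
    · rw [pow_zero, pow_zero]; rfl
  | succ m ih =>
    rw [pow_succ, ih]
    refine E.ext ?_ ?_
    · rw [mul_v, Finset.sum_range_succ]
    · rw [mul_g, pow_succ]

theorem prod_g {k : ℕ} (ξ : Fin k → E F) :
    (List.ofFn ξ).prod.g = (List.ofFn (fun i => (ξ i).g)).prod := by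
  have h := map_list_prod (pg : E F →* F) (List.ofFn ξ)
  rw [List.map_ofFn] at h
  exact h

theorem prod_v : ∀ (k : ℕ) (ξ : Fin k → E F), (List.ofFn ξ).prod.v =
    ∑ i : Fin k, act ((List.ofFn (fun i => (ξ i).g)).take i).prod (ξ i).v := by
  intro k
  induction k with
  | zero =>
    intro ξ
    simp only [List.ofFn_zero, List.prod_nil, Finset.univ_eq_empty, Finset.sum_empty]
    rfl
  | succ k ih =>
    intro ξ
    rw [List.ofFn_succ, List.prod_cons, mul_v, ih, Fin.sum_univ_succ, act_sum]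
    congr 1
    · simp [act_one]
    · refine Finset.sum_congr rfl fun i _ => ?_
      rw [← act_mul, List.ofFn_succ, Fin.val_succ, List.take_succ_cons, List.prod_cons]

end XCR

open XCR in
theorem pr_CR : StCR := by
  intro F _ _ k X p a' r a K _ C _ φ e ψ hp hr ha hb hC
  obtain ⟨ξ, hξ⟩ : ∃ ξ : Fin k → E F, ξ = fun i => ⟨a i, X i⟩ := ⟨_, rfl⟩
  have hξp : ∀ i, ξ i ^ p i = 1 := by
    intro i
    rw [hξ, pow_eq]
    refine E.ext ?_ ?_
    · exact ha i
    · show X i ^ p i = 1
      rw [← hp i]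
      exact pow_orderOf_eq_one _
  have hP : (List.ofFn ξ).prod = ⟨bval X a, (List.ofFn X).prod⟩ := by
    refine E.ext ?_ ?_
    · rw [prod_v, hξ]
      rfl
    · rw [prod_g, hξ]
  have hPr : (List.ofFn ξ).prod ^ r = 1 := by
    rw [hP, pow_eq]
    refine E.ext ?_ ?_
    · exact hb
    · show (List.ofFn X).prod ^ r = 1
      rw [← hr]
      exact pow_orderOf_eq_one _
  -- the Seifert side
  obtain ⟨f0, hf0⟩ : ∃ f0 : Option (Fin k) → E F, f0 = fun o => o.elim 1 ξ := ⟨_, rfl⟩
  have hf0n : f0 none = 1 := by rw [hf0]; rfl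
  have hf0s : ∀ i, f0 (some i) = ξ i := fun i => by rw [hf0]; rfl
  have hrel : ∀ w ∈ rels p a', FreeGroup.lift f0 w = 1 := by
    rintro w ⟨i, hw | hw⟩
    · rw [hw, map_mul, map_inv, map_pow, map_zpow, FreeGroup.lift_apply_of, FreeGroup.lift_apply_of,
        hf0n, hf0s, hξp, one_zpow, inv_one, mul_one]
    · rw [hw, map_mul, map_mul, map_mul, map_inv, map_inv, FreeGroup.lift_apply_of,
        FreeGroup.lift_apply_of, hf0n, hf0s, mul_one, inv_one, mul_one, mul_inv_cancel]
  obtain ⟨T, hT⟩ : ∃ T : Seif p a' →* E F, ∀ o, T (PresentedGroup.of o) = f0 o :=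
    ⟨PresentedGroup.toGroup hrel, fun o => PresentedGroup.toGroup.of hrel⟩
  have hTfib : T (fib p a') = 1 := by
    rw [fib, hT, hf0n]
  have hTbd : T (bd p a') = (List.ofFn ξ).prod := by
    rw [bd, map_list_prod, List.map_ofFn]
    congr 2
    funext i
    exact (hT (some i)).trans (hf0s i)
  -- the other side
  obtain ⟨L, hL⟩ : ∃ L : ZMod r →+ Additive (E F), ∀ m : ℤ,
      L (m : ZMod r) = Additive.ofMul ((List.ofFn ξ).prod ^ m) := by
    refine ⟨ZMod.lift r ⟨zmultiplesHom (Additive (E F)) (Additive.ofMul (List.ofFn ξ).prod), ?_⟩, ?_⟩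
    · rw [zmultiplesHom_apply, ← ofMul_zpow, zpow_natCast, hPr]
      rfl
    · intro m
      rw [ZMod.lift_coe, zmultiplesHom_apply, ← ofMul_zpow]
  obtain ⟨θ, hθ⟩ : ∃ θ : Multiplicative (ZMod r) →* E F, ∀ m : ℤ,
      θ (Multiplicative.ofAdd (m : ZMod r)) = (List.ofFn ξ).prod ^ m := by
    refine ⟨{ toFun := fun x => Additive.toMul (L (Multiplicative.toAdd x))
              map_one' := ?_
              map_mul' := ?_ }, ?_⟩
    · rw [toAdd_one, map_zero]
      rfl
    · intro x y
      rw [toAdd_mul, map_add]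
      rfl
    · intro m
      show Additive.toMul (L (m : ZMod r)) = _
      rw [hL]
      rfl
  -- the map of the amalgam
  obtain ⟨f, hft, hff⟩ : ∃ f : ∀ b : Bool, K b →* E F, f true = T.comp e.toMonoidHom ∧
      f false = θ.comp ψ :=
    ⟨fun b => match b with
      | true => T.comp e.toMonoidHom
      | false => θ.comp ψ, rfl, rfl⟩
  have hcomp : ∀ b, (f b).comp (φ b) = (f true).comp (φ true) := by
    intro b
    cases b with
    | true => rfl
    | false =>
      refine MonoidHom.ext fun c => ?_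
      obtain ⟨m, n, h1, h2⟩ := hC c
      have e1 : ((f false).comp (φ false)) c = θ (ψ (φ false c)) := by
        rw [hff]; rfl
      have e2 : ((f true).comp (φ true)) c = T (e (φ true c)) := by
        rw [hft]; rfl
      rw [e1, e2, h1, h2, hθ, map_mul, map_zpow, map_zpow, hTfib, hTbd, one_zpow, mul_one]
  obtain ⟨Φ, hΦ⟩ : ∃ Φ : Monoid.PushoutI φ →* E F, ∀ b (x : K b), Φ (Monoid.PushoutI.of b x) = f b x :=
    ⟨Monoid.PushoutI.lift f ((f true).comp (φ true)) hcomp, fun b x => Monoid.PushoutI.lift_of _ _ hcomp x⟩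
  refine ⟨pg.comp Φ, fun g => (Φ g).v, ?_, ?_⟩
  · intro g h
    show (Φ (g * h)).v = (Φ g).v + act (Φ g).g (Φ h).v
    rw [map_mul, mul_v]
  · intro i
    refine ⟨Monoid.PushoutI.of true (e.symm (PresentedGroup.of (some i))), ?_⟩
    have e1 : Φ (Monoid.PushoutI.of true (e.symm (PresentedGroup.of (some i)))) = ⟨a i, X i⟩ := by
      rw [hΦ, hft]
      show T (e (e.symm (PresentedGroup.of (some i)))) = _
      rw [MulEquiv.apply_symm_apply, hT, hf0s, hξ]
    refine ⟨?_, ?_⟩
    · show (Φ _).g = X i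
      rw [e1]
    · show (Φ _).v = a i
      rw [e1]

end Pool.Agent.Work.MP_7107b3_al.SF
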