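import Pool.Agent.Work.MP_7107b3_al.SF.Stmts

/-!
# MP_7107b3_al, block SF, item DM: the dimension count
-/

set_option autoImplicit false

namespace Pool.Agent.Work.MP_7107b3_al.SF

open scoped Classical

namespace XDM

variable {F : Type} [Group F]

/-- The sum over the powers of g at the representatives of the cosets. -/
noncomputable def nq (g : F) : (F → ℚ) →ₗ[ℚ] ((F ⧸ Subgroup.zpowers g) → ℚ) where
  toFun a q := ∑ j ∈ Finset.range (orderOf g), a ((g ^ j)⁻¹ * (q.out)⁻¹)
  map_add' := by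
    intro a b
    funext q
    simp [Finset.sum_add_distrib]
  map_smul' := by
    intro c a
    funext q
    simp [Finset.mul_sum]

theorem shift (g : F) (a : F → ℚ) (s : F) :
    ∑ j ∈ Finset.range (orderOf g), a ((g ^ j)⁻¹ * (g⁻¹ * s)) =
      ∑ j ∈ Finset.range (orderOf g), a ((g ^ j)⁻¹ * s) := by
  have h1 : ∀ j, a ((g ^ j)⁻¹ * (g⁻¹ * s)) = a ((g ^ (j + 1))⁻¹ * s) := by
    intro j
    rw [← mul_assoc, ← mul_inv_rev, ← pow_succ']
  rw [Finset.sum_congr rfl (fun j _ => h1 j)]
  have h2 := Finset.sum_range_succ (fun j => a ((g ^ j)⁻¹ * s)) (orderOf g)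
  have h3 := Finset.sum_range_succ' (fun j => a ((g ^ j)⁻¹ * s)) (orderOf g)
  rw [h2] at h3
  simp only [pow_orderOf_eq_one, pow_zero] at h3
  linarith

theorem shift_pow (g : F) (a : F → ℚ) (i : ℕ) : ∀ s : F,
    ∑ j ∈ Finset.range (orderOf g), a ((g ^ j)⁻¹ * ((g ^ i)⁻¹ * s)) =
      ∑ j ∈ Finset.range (orderOf g), a ((g ^ j)⁻¹ * s) := by
  induction i with
  | zero =>
    intro s
    simp
  | succ i ih =>
    intro s
    have h1 : (g ^ (i + 1))⁻¹ * s = (g ^ i)⁻¹ * (g⁻¹ * s) := by
      rw [pow_succ', mul_inv_rev, mul_assoc]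
    rw [h1, ih, shift]

theorem nq_zero [Finite F] (g : F) (a : F → ℚ) (h : nq g a = 0) (s : F) :
    ∑ j ∈ Finset.range (orderOf g), a ((g ^ j)⁻¹ * s) = 0 := by
  have h1 := congrFun h (QuotientGroup.mk s⁻¹ : F ⧸ Subgroup.zpowers g)
  obtain ⟨z, hz⟩ := QuotientGroup.mk_out_eq_mul (Subgroup.zpowers g) s⁻¹
  have hz2 : (z : F) ∈ Submonoid.powers g :=
    ((isOfFinOrder_of_finite g).mem_powers_iff_mem_zpowers).2 z.2
  obtain ⟨i, hi⟩ := hz2
  change ∑ j ∈ Finset.range (orderOf g),
    a ((g ^ j)⁻¹ * ((QuotientGroup.mk s⁻¹ : F ⧸ Subgroup.zpowers g).out)⁻¹) = 0 at h1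
  rw [hz, ← hi] at h1
  simp only [mul_inv_rev, inv_inv] at h1
  rw [shift_pow g a i s] at h1
  exact h1

theorem card_q [Fintype F] (g : F) :
    Nat.card (F ⧸ Subgroup.zpowers g) * orderOf g = Fintype.card F := by
  rw [← Nat.card_zpowers g, ← Subgroup.card_eq_card_quotient_mul_card_subgroup,
    Nat.card_eq_fintype_card]

/-- The rational form of bval. -/
noncomputable def bq {k : ℕ} (X : Fin k → F) : (Fin k → F → ℚ) →ₗ[ℚ] (F → ℚ) where
  toFun a s := ∑ i : Fin k, a i ((((List.ofFn X).take i).prod)⁻¹ * s)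
  map_add' := by
    intro a b
    funext q
    simp [Finset.sum_add_distrib]
  map_smul' := by
    intro c a
    funext q
    simp [Finset.mul_sum]

/-- The inner crossed homomorphisms. -/
noncomputable def inn {k : ℕ} (X : Fin k → F) : (F → ℚ) →ₗ[ℚ] (Fin k → F → ℚ) where
  toFun v i s := v ((X i)⁻¹ * s) - v s
  map_add' := by
    intro a b
    funext i q
    simp
    ring
  map_smul' := by
    intro c a
    funext i q
    simp
    ring

/-- The elements of the conditions. -/
noncomputable def gg {k : ℕ} (X : Fin k → F) (o : Option (Fin k)) : F := o.elim (List.ofFn X).prod X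

/-- The functions of the conditions. -/
noncomputable def cc {k : ℕ} (X : Fin k → F) (o : Option (Fin k)) :
    (Fin k → F → ℚ) →ₗ[ℚ] (F → ℚ) := o.elim (bq X) (fun i => LinearMap.proj i)

/-- All conditions. -/
noncomputable def Phi {k : ℕ} (X : Fin k → F) :
    (Fin k → F → ℚ) →ₗ[ℚ] ((o : Option (Fin k)) → ((F ⧸ Subgroup.zpowers (gg X o)) → ℚ)) :=
  LinearMap.pi (fun o => nq (gg X o) ∘ₗ cc X o)

theorem finrank_ker_Phi [Fintype F] {k : ℕ} (X : Fin k → F) :
    k * Fintype.card F ≤ Module.finrank ℚ (LinearMap.ker (Phi X)) +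
      ∑ o : Option (Fin k), Nat.card (F ⧸ Subgroup.zpowers (gg X o)) := by
  have : ∀ o, Fintype (F ⧸ Subgroup.zpowers (gg X o)) := fun o => Fintype.ofFinite _
  have h1 := LinearMap.finrank_range_add_finrank_ker (Phi X)
  have h2 : Module.finrank ℚ (LinearMap.range (Phi X)) ≤
      ∑ o : Option (Fin k), Nat.card (F ⧸ Subgroup.zpowers (gg X o)) := by
    refine (Submodule.finrank_le _).trans (le_of_eq ?_)
    rw [Module.finrank_pi_fintype]
    apply Finset.sum_congr rfl
    intro o _
    rw [Module.finrank_fintype_fun_eq_card, Nat.card_eq_fintype_card]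
  have h3 : Module.finrank ℚ (Fin k → F → ℚ) = k * Fintype.card F := by
    rw [Module.finrank_pi_fintype]
    simp
  omega

theorem finrank_range_inn [Fintype F] {k : ℕ} (X : Fin k → F) :
    Module.finrank ℚ (LinearMap.range (inn X)) + 1 ≤ Fintype.card F := by
  have h1 := LinearMap.finrank_range_add_finrank_ker (inn X)
  have h2 : 1 ≤ Module.finrank ℚ (LinearMap.ker (inn X)) := by
    rw [Submodule.one_le_finrank_iff]
    intro h
    have h3 : (fun _ => 1 : F → ℚ) ∈ LinearMap.ker (inn X) := by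
      rw [LinearMap.mem_ker]
      funext i s
      simp [inn]
    rw [h, Submodule.mem_bot] at h3
    have := congrFun h3 1
    simp at this
  have h3 : Module.finrank ℚ (F → ℚ) = Fintype.card F := by
    rw [Module.finrank_fintype_fun_eq_card]
  omega

theorem exists_rat [Fintype F] {k : ℕ} (X : Fin k → F) (p : Fin k → ℕ) (r : ℕ)
    (hp : ∀ i, orderOf (X i) = p i) (hr : orderOf (List.ofFn X).prod = r)
    (hn : ∑ i, (1 : ℚ) / p i + 1 / r ≤ (k : ℚ) - 1) :
    ∃ a : Fin k → F → ℚ, Phi X a = 0 ∧ ¬ ∃ v, inn X v = a := by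
  by_contra hcon
  push Not at hcon
  have h1 : LinearMap.ker (Phi X) ≤ LinearMap.range (inn X) := by
    intro a ha
    exact hcon a (LinearMap.mem_ker.1 ha)
  have h2 := Submodule.finrank_mono h1
  have h3 := finrank_ker_Phi X
  have h4 := finrank_range_inn X
  have h5 : ((∑ o : Option (Fin k), Nat.card (F ⧸ Subgroup.zpowers (gg X o)) : ℕ) : ℚ) ≤
      ((k : ℚ) - 1) * Fintype.card F := by
    have h6 : ∀ g : F, ((Nat.card (F ⧸ Subgroup.zpowers g) : ℕ) : ℚ) =
        1 / (orderOf g : ℚ) * Fintype.card F := by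
      intro g
      have h7 : (0 : ℚ) < orderOf g := by
        exact_mod_cast orderOf_pos g
      have h8 : ((Nat.card (F ⧸ Subgroup.zpowers g) : ℕ) : ℚ) * (orderOf g : ℚ) = Fintype.card F := by
        exact_mod_cast card_q g
      rw [← h8]
      field_simp
    rw [Nat.cast_sum, Fintype.sum_option]
    rw [h6 (gg X none)]
    rw [Finset.sum_congr rfl (fun i _ => h6 (gg X (some i)))]
    have h9 : ∀ i : Fin k, orderOf (gg X (some i)) = p i := hp
    have h10 : orderOf (gg X none) = r := hr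
    rw [h10, Finset.sum_congr rfl (fun i _ => by rw [h9 i]), ← Finset.sum_mul, ← add_mul]
    apply mul_le_mul_of_nonneg_right _ (Nat.cast_nonneg _)
    linarith
  have h11 : ((k * Fintype.card F : ℕ) : ℚ) ≤
      ((Module.finrank ℚ (LinearMap.ker (Phi X)) +
      ∑ o : Option (Fin k), Nat.card (F ⧸ Subgroup.zpowers (gg X o)) : ℕ) : ℚ) := by
    exact_mod_cast h3
  have h12 : ((Module.finrank ℚ (LinearMap.ker (Phi X)) + 1 : ℕ) : ℚ) ≤ Fintype.card F := by
    exact_mod_cast (by omega : Module.finrank ℚ (LinearMap.ker (Phi X)) + 1 ≤ Fintype.card F)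
  push_cast at h11 h12 h5
  linarith

end XDM

open XDM in
theorem pr_DM : StDM := by
  intro F _ _ k X p r hp hr hn
  obtain ⟨a, ha, hna⟩ := exists_rat X p r hp hr hn
  have hN : ∀ (i : Fin k) (s : F), ∑ j ∈ Finset.range (p i), a i ((X i ^ j)⁻¹ * s) = 0 := by
    intro i s
    have h1 := congrFun ha (some i)
    have h2 := nq_zero (X i) (a i) h1 s
    rw [hp i] at h2
    exact h2
  have hB : ∀ s : F, ∑ j ∈ Finset.range r, bq X a (((List.ofFn X).prod ^ j)⁻¹ * s) = 0 := by
    intro s
    have h1 := congrFun ha none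
    have h2 := nq_zero (List.ofFn X).prod (bq X a) h1 s
    rw [hr] at h2
    exact h2
  obtain ⟨d, hd⟩ := IsLocalization.exist_integer_multiples_of_finite (nonZeroDivisors ℤ)
    (fun x : Fin k × F => a x.1 x.2)
  have hd0 : ((d : ℤ) : ℚ) ≠ 0 := by
    exact_mod_cast nonZeroDivisors.ne_zero d.2
  have hb : ∀ (i : Fin k) (s : F), ∃ z : ℤ, (z : ℚ) = (d : ℤ) * a i s := by
    intro i s
    obtain ⟨z, hz⟩ := hd (i, s)
    refine ⟨z, ?_⟩
    simpa using hz
  choose b hb using hb
  refine ⟨b, ?_, ?_, ?_⟩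
  · intro i
    funext s
    rw [Finset.sum_apply]
    have h1 : ((∑ j ∈ Finset.range (p i), act (X i ^ j) (b i) s : ℤ) : ℚ) = 0 := by
      push_cast
      have h2 : ∀ j, ((act (X i ^ j) (b i) s : ℤ) : ℚ) = (d : ℤ) * a i ((X i ^ j)⁻¹ * s) :=
        fun j => hb i _
      rw [Finset.sum_congr rfl (fun j _ => h2 j), ← Finset.mul_sum, hN, mul_zero]
    exact_mod_cast h1
  · funext s
    rw [Finset.sum_apply]
    have h1 : ((∑ j ∈ Finset.range r, act ((List.ofFn X).prod ^ j) (bval X b) s : ℤ) : ℚ) = 0 := by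
      push_cast
      have h2 : ∀ j, ((act ((List.ofFn X).prod ^ j) (bval X b) s : ℤ) : ℚ) =
          (d : ℤ) * bq X a (((List.ofFn X).prod ^ j)⁻¹ * s) := by
        intro j
        unfold act bval
        rw [Finset.sum_apply]
        push_cast
        unfold bq
        simp only [LinearMap.coe_mk, AddHom.coe_mk]
        rw [Finset.mul_sum]
        apply Finset.sum_congr rfl
        intro i _
        exact hb i _
      rw [Finset.sum_congr rfl (fun j _ => h2 j), ← Finset.mul_sum, hB, mul_zero]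
    exact_mod_cast h1
  · rintro ⟨v, hv⟩
    apply hna
    refine ⟨fun s => v s / (d : ℤ), ?_⟩
    funext i s
    have h1 := hv i s
    rw [hb i s] at h1
    unfold act at h1
    change v ((X i)⁻¹ * s) / (d : ℤ) - v s / (d : ℤ) = a i s
    rw [← sub_div, ← h1]
    field_simp

end Pool.Agent.Work.MP_7107b3_al.SF
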