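import Pool.Agent.Work.MP_7107b3_al.SF.Stmts

/-!
# MP_7107b3_al, block SF, item FIN: assembly
-/

set_option autoImplicit false

namespace Pool.Agent.Work.MP_7107b3_al.SF

theorem pr_FIN (hFN : StFN) (hDM : StDM) (hNI : StNI) (hCR : StCR) : StFIN := by
  intro k p a' r hp hr hnum K _ C _ φ e ψ hC
  obtain ⟨F, iF, fF, X, hX, hXr⟩ := hFN k p r hp hr hnum
  obtain ⟨a, ha1, ha2, ha3⟩ := hDM F k X p r hX hXr hnum
  obtain ⟨ρ, D, hD, hgi⟩ := hCR F k X p a' r a K C φ e ψ hX hXr ha1 ha2 hC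
  refine hNI (Monoid.PushoutI φ) F ρ D hD ?_
  rintro ⟨v, hv⟩
  refine ha3 ⟨v, fun i s => ?_⟩
  obtain ⟨g, hg1, hg2⟩ := hgi i
  have h := hv g s
  rw [hg1, hg2] at h
  exact h

end Pool.Agent.Work.MP_7107b3_al.SF
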