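import Pool.Agent.Work.MP_7107b3_al.SF.Stmts

set_option autoImplicit false

namespace Pool.Agent.Work.MP_7107b3_al.SF

namespace XFN

theorem prod_snoc {F : Type} [Group F] {n : ℕ} (X : Fin n → F) (y : F) :
    (List.ofFn (Fin.snoc (α := fun _ => F) X y : Fin (n + 1) → F)).prod = (List.ofFn X).prod * y := by
  rw [List.ofFn_succ']
  simp

theorem claim (hFX : StFX) (hGL : StGL) (m : ℕ) : ∀ (p : Fin (m + 2) → ℕ) (r : ℕ), (∀ i, 2 ≤ p i) → 2 ≤ r →
    ∃ (F : Type) (_ : Group F) (_ : Finite F) (X : Fin (m + 2) → F), (∀ i, orderOf (X i) = p i) ∧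
      orderOf (List.ofFn X).prod = r := by
  induction m with
  | zero =>
    intro p r hp hr
    obtain ⟨F, iG, iF, x, y, hx, hy, hxy⟩ := hFX (p 0) (p 1) r (hp 0) (hp 1) hr
    refine ⟨F, iG, iF, ![x, y], ?_, ?_⟩
    · intro i
      match i with
      | 0 => simpa using hx
      | 1 => simpa using hy
    · simpa [List.ofFn_succ] using hxy
  | succ m ih =>
    intro p r hp hr
    obtain ⟨F₁, iG₁, iF₁, X₁, hX₁, hP₁⟩ := ih (fun i => p i.castSucc) 2 (fun i => hp _) le_rfl
    obtain ⟨F₂, iG₂, iF₂, x, y, hx, hy, hxy⟩ := hFX 2 (p (Fin.last _)) r le_rfl (hp _) hr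
    obtain ⟨F, iG, iF, i₁, i₂, h₁, h₂, h₁₂⟩ := hGL F₁ F₂ (List.ofFn X₁).prod x hP₁ hx
    refine ⟨F, iG, iF, Fin.snoc (α := fun _ => F) (fun i => i₁ (X₁ i)) (i₂ y), ?_, ?_⟩
    · intro i
      refine Fin.lastCases ?_ (fun j => ?_) i
      · rw [Fin.snoc_last, orderOf_injective i₂ h₂, hy]
      · rw [Fin.snoc_castSucc, orderOf_injective i₁ h₁, hX₁]
    · rw [prod_snoc]
      have h3 : (List.ofFn fun i => i₁ (X₁ i)).prod = i₁ (List.ofFn X₁).prod := by
        rw [map_list_prod, List.map_ofFn]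
        rfl
      rw [h3, h₁₂, ← map_mul, orderOf_injective i₂ h₂, hxy]

end XFN

theorem pr_FN (hFX : StFX) (hGL : StGL) : StFN := by
  intro k p r hp hr hsum
  have hpos : ∀ i, (0 : ℚ) < 1 / (p i : ℚ) := by
    intro i
    have : (0 : ℚ) < (p i : ℚ) := by exact_mod_cast (lt_of_lt_of_le (by norm_num) (hp i))
    positivity
  have hrpos : (0 : ℚ) < 1 / (r : ℚ) := by
    have : (0 : ℚ) < (r : ℚ) := by exact_mod_cast hr
    positivity
  rcases Nat.lt_or_ge 1 r with h2 | h1
  · -- r ≥ 2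
    match k, p, hp, hsum, hpos with
    | 0, p, hp, hsum, hpos =>
      exfalso
      rw [Fin.sum_univ_zero] at hsum
      push_cast at hsum
      linarith
    | 1, p, hp, hsum, hpos =>
      exfalso
      rw [Fin.sum_univ_one] at hsum
      have := hpos 0
      push_cast at hsum
      linarith
    | n + 2, p, hp, hsum, hpos =>
      obtain ⟨F, iG, iF, X, hX, hP⟩ := XFN.claim hFX hGL n p r hp h2
      exact ⟨F, iG, Fintype.ofFinite F, X, hX, hP⟩
  · have hr1 : r = 1 := le_antisymm h1 hr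
    subst hr1
    match k, p, hp, hsum, hpos with
    | 0, p, hp, hsum, hpos => exfalso; norm_num at hsum
    | 1, p, hp, hsum, hpos =>
      exfalso
      rw [Fin.sum_univ_one] at hsum
      have := hpos 0
      push_cast at hsum
      linarith
    | 2, p, hp, hsum, hpos =>
      exfalso
      rw [Fin.sum_univ_two] at hsum
      have := hpos 0
      have := hpos 1
      push_cast at hsum
      linarith
    | n + 3, p, hp, hsum, hpos =>
      obtain ⟨F, iG, iF, X, hX, hP⟩ := XFN.claim hFX hGL n (fun i => p i.castSucc) (p (Fin.last _))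
        (fun i => hp _) (hp _)
      refine ⟨F, iG, Fintype.ofFinite F, Fin.snoc (α := fun _ => F) X ((List.ofFn X).prod)⁻¹, ?_, ?_⟩
      · intro i
        refine Fin.lastCases ?_ (fun j => ?_) i
        · rw [Fin.snoc_last, orderOf_inv, hP]
        · rw [Fin.snoc_castSucc, hX]
      · rw [XFN.prod_snoc, mul_inv_cancel, orderOf_one]

end Pool.Agent.Work.MP_7107b3_al.SF
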