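import Pool.Agent.Work.MP_7107b3_al.SF.Stmts

/-! [7107b3 SF] Item FX: triples of exact orders in finite groups. -/

set_option autoImplicit false

namespace Pool.Agent.Work.MP_7107b3_al.SF

namespace XFX

open Matrix

variable {K : Type} [Field K]

/-- The numbers u_j. -/
noncomputable def u (δ : K) (j : ℕ) : K := (δ ^ j - δ⁻¹ ^ j) / (δ - δ⁻¹)

theorem u_zero (δ : K) : u δ 0 = 0 := by simp [u]

theorem u_one (δ : K) (h : δ - δ⁻¹ ≠ 0) : u δ 1 = 1 := by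
  unfold u
  rw [pow_one, pow_one, div_self h]

theorem u_rec (δ : K) (h0 : δ ≠ 0) (j : ℕ) :
    u δ (j + 2) = (δ + δ⁻¹) * u δ (j + 1) - u δ j := by
  have h1 : δ * δ⁻¹ = 1 := mul_inv_cancel₀ h0
  unfold u
  rw [mul_div_assoc', ← sub_div]
  congr 1
  generalize δ⁻¹ = ε at *
  have e1 : δ ^ (j + 2) = δ ^ j * δ * δ := by ring
  have e2 : ε ^ (j + 2) = ε ^ j * ε * ε := by ring
  have e3 : δ ^ (j + 1) = δ ^ j * δ := by ring
  have e4 : ε ^ (j + 1) = ε ^ j * ε := by ring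
  rw [e1, e2, e3, e4]
  linear_combination (ε ^ j - δ ^ j) * h1

theorem pow_eq (M : Matrix (Fin 2) (Fin 2) K) (δ : K) (h0 : δ ≠ 0) (h : δ - δ⁻¹ ≠ 0)
    (hM : M * M = (δ + δ⁻¹) • M - 1) (j : ℕ) :
    M ^ (j + 1) = u δ (j + 1) • M - u δ j • (1 : Matrix (Fin 2) (Fin 2) K) := by
  induction j with
  | zero => simp [u_zero, u_one δ h]
  | succ j ih =>
    rw [pow_succ, ih, sub_mul, smul_mul_assoc, hM, smul_mul_assoc, one_mul, u_rec δ h0 j]
    rw [smul_sub, smul_smul, sub_smul]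
    rw [mul_comm (u δ (j + 1)) (δ + δ⁻¹)]
    abel

theorem u_eq_zero (δ : Kˣ) (n j : ℕ) (ho : orderOf δ = 2 * n) (h : (δ : K) - (δ : K)⁻¹ ≠ 0) :
    u (δ : K) j = 0 ↔ n ∣ j := by
  unfold u
  rw [div_eq_zero_iff, or_iff_left h, sub_eq_zero]
  have h1 : ((δ : K) ^ j = (δ : K)⁻¹ ^ j) ↔ δ ^ (2 * j) = 1 := by
    rw [← Units.val_inv_eq_inv_val, ← Units.val_pow_eq_pow_val, ← Units.val_pow_eq_pow_val,
      Units.val_inj, inv_pow, eq_inv_iff_mul_eq_one, ← pow_add, two_mul]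
  rw [h1, ← orderOf_dvd_iff_pow_eq_one, ho]
  exact Nat.mul_dvd_mul_iff_left (by norm_num)

theorem center_iff (A : Matrix.SpecialLinearGroup (Fin 2) K) (δ : Kˣ) (n : ℕ) (ho : orderOf δ = 2 * n)
    (hn : 2 ≤ n) (hA : (A : Matrix (Fin 2) (Fin 2) K) * A = ((δ : K) + (δ : K)⁻¹) • (A : Matrix (Fin 2) (Fin 2) K) - 1)
    (hns : ¬ ∃ r : K, (A : Matrix (Fin 2) (Fin 2) K) = r • (1 : Matrix (Fin 2) (Fin 2) K)) (j : ℕ) :
    A ^ j ∈ Subgroup.center (Matrix.SpecialLinearGroup (Fin 2) K) ↔ n ∣ j := by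
  have h0 : (δ : K) ≠ 0 := δ.ne_zero
  have h : (δ : K) - (δ : K)⁻¹ ≠ 0 := by
    intro hc
    rw [sub_eq_zero] at hc
    have h1 : δ ^ 2 = 1 := by
      rw [← Units.val_inv_eq_inv_val, Units.val_inj, eq_inv_iff_mul_eq_one] at hc
      rw [pow_two]
      exact hc
    have h2 := orderOf_dvd_of_pow_eq_one h1
    rw [ho] at h2
    have h3 := Nat.le_of_dvd (by norm_num) h2
    omega
  rcases Nat.eq_zero_or_pos j with hj | hj
  · subst hj
    simp
  · obtain ⟨i, rfl⟩ : ∃ i, j = i + 1 := ⟨j - 1, by omega⟩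
    have hp := pow_eq (A : Matrix (Fin 2) (Fin 2) K) (δ : K) h0 h hA i
    have hcoe : ((A ^ (i + 1) : Matrix.SpecialLinearGroup (Fin 2) K) : Matrix (Fin 2) (Fin 2) K) =
        (A : Matrix (Fin 2) (Fin 2) K) ^ (i + 1) := Matrix.SpecialLinearGroup.coe_pow A (i + 1)
    rw [← u_eq_zero δ n (i + 1) ho h]
    constructor
    · intro hc
      rw [Matrix.SpecialLinearGroup.mem_center_iff] at hc
      obtain ⟨r, _, hr⟩ := hc
      by_contra hu
      apply hns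
      have h1 : u (δ : K) (i + 1) • (A : Matrix (Fin 2) (Fin 2) K) =
          (r + u (δ : K) i) • (1 : Matrix (Fin 2) (Fin 2) K) := by
        have h2 : (r • (1 : Matrix (Fin 2) (Fin 2) K)) = u (δ : K) (i + 1) • (A : Matrix (Fin 2) (Fin 2) K) -
            u (δ : K) i • (1 : Matrix (Fin 2) (Fin 2) K) := by
          rw [← hp, ← hcoe, ← hr]
          ext a b
          simp [Matrix.scalar_apply, Matrix.diagonal_apply, Matrix.one_apply]
        rw [add_smul, h2]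
        abel
      refine ⟨(u (δ : K) (i + 1))⁻¹ * (r + u (δ : K) i), ?_⟩
      rw [mul_smul, ← h1, smul_smul, inv_mul_cancel₀ hu, one_smul]
    · intro hu
      rw [Subgroup.mem_center_iff]
      intro B
      have h3 : ((B * A ^ (i + 1) : Matrix.SpecialLinearGroup (Fin 2) K) : Matrix (Fin 2) (Fin 2) K) =
          ((A ^ (i + 1) * B : Matrix.SpecialLinearGroup (Fin 2) K) : Matrix (Fin 2) (Fin 2) K) := by
        rw [Matrix.SpecialLinearGroup.coe_mul, Matrix.SpecialLinearGroup.coe_mul, hcoe, hp, hu, zero_smul, zero_sub,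
          mul_neg, neg_mul, mul_smul_comm, smul_mul_assoc, mul_one, one_mul]
      exact Subtype.ext h3

theorem order_mk (A : Matrix.SpecialLinearGroup (Fin 2) K) (δ : Kˣ) (n : ℕ) (ho : orderOf δ = 2 * n)
    (hn : 2 ≤ n) (hA : (A : Matrix (Fin 2) (Fin 2) K) * A = ((δ : K) + (δ : K)⁻¹) • (A : Matrix (Fin 2) (Fin 2) K) - 1)
    (hns : ¬ ∃ r : K, (A : Matrix (Fin 2) (Fin 2) K) = r • (1 : Matrix (Fin 2) (Fin 2) K)) :
    orderOf (QuotientGroup.mk A :
      Matrix.SpecialLinearGroup (Fin 2) K ⧸ Subgroup.center (Matrix.SpecialLinearGroup (Fin 2) K)) = n := by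
  have key : ∀ j : ℕ, (QuotientGroup.mk A :
      Matrix.SpecialLinearGroup (Fin 2) K ⧸ Subgroup.center (Matrix.SpecialLinearGroup (Fin 2) K)) ^ j = 1 ↔ n ∣ j := by
    intro j
    rw [← QuotientGroup.mk_pow, QuotientGroup.eq_one_iff, center_iff A δ n ho hn hA hns j]
  exact Nat.dvd_antisymm (orderOf_dvd_of_pow_eq_one ((key n).2 dvd_rfl)) ((key _).1 (pow_orderOf_eq_one _))

/-- Cayley-Hamilton. -/
theorem ch (a b c d τ : K) (hdet : a * d - b * c = 1) (hτ : a + d = τ) :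
    !![a, b; c, d] * !![a, b; c, d] = τ • !![a, b; c, d] - (1 : Matrix (Fin 2) (Fin 2) K) := by
  subst hτ
  ext i j
  fin_cases i <;> fin_cases j <;>
    simp [Matrix.mul_apply, Fin.sum_univ_two] <;> first | linear_combination -hdet | ring1

/-- The matrix as an element of SL_2. -/
def sl (a b c d : K) (h : a * d - b * c = 1) : Matrix.SpecialLinearGroup (Fin 2) K :=
  ⟨!![a, b; c, d], by rw [Matrix.det_fin_two_of]; exact h⟩

theorem order_sl (a b c d : K) (h : a * d - b * c = 1) (δ : Kˣ) (n : ℕ) (ho : orderOf δ = 2 * n)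
    (hn : 2 ≤ n) (hτ : a + d = (δ : K) + (δ : K)⁻¹) (hns : b ≠ 0 ∨ a ≠ d) :
    orderOf (QuotientGroup.mk (sl a b c d h) :
      Matrix.SpecialLinearGroup (Fin 2) K ⧸ Subgroup.center (Matrix.SpecialLinearGroup (Fin 2) K)) = n := by
  refine order_mk (sl a b c d h) δ n ho hn (ch a b c d _ h hτ) ?_
  rintro ⟨r, hr⟩
  have hr' : !![a, b; c, d] = r • (1 : Matrix (Fin 2) (Fin 2) K) := hr
  have h1 := congrFun (congrFun hr' 0) 1
  have h2 := congrFun (congrFun hr' 0) 0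
  have h3 := congrFun (congrFun hr' 1) 1
  simp at h1 h2 h3
  rcases hns with h4 | h4
  · exact h4 h1
  · exact h4 (h2.trans h3.symm)

theorem exists_unit (l : ℕ) [Fact l.Prime] (d : ℕ) (hd : d ∣ l - 1) :
    ∃ g : (ZMod l)ˣ, orderOf g = d := by
  obtain ⟨g, hg⟩ := IsCyclic.exists_generator (α := (ZMod l)ˣ)
  have h1 : orderOf g = l - 1 := by
    rw [orderOf_eq_card_of_forall_mem_zpowers hg, Nat.card_eq_fintype_card, ZMod.card_units]
  have hl : 0 < l - 1 := by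
    have := (Fact.out : l.Prime).two_le
    omega
  refine ⟨g ^ (orderOf g / d), orderOf_pow_orderOf_div ?_ ?_⟩
  · rw [h1]; exact hl.ne'
  · rw [h1]; exact hd

end XFX

open XFX in
theorem pr_FX : StFX := by
  intro p q r hp hq hr
  obtain ⟨l, hl, hlgt, hmod⟩ := Nat.exists_prime_gt_modEq_one (k := 2 * p * q * r) 2 (by positivity)
  have : Fact l.Prime := ⟨hl⟩
  have hdvd : 2 * p * q * r ∣ l - 1 := (Nat.modEq_iff_dvd' (by omega)).1 hmod.symm
  obtain ⟨α, hα⟩ := exists_unit l (2 * p) (Dvd.dvd.trans ⟨q * r, by ring⟩ hdvd)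
  obtain ⟨β, hβ⟩ := exists_unit l (2 * q) (Dvd.dvd.trans ⟨p * r, by ring⟩ hdvd)
  obtain ⟨γ, hγ⟩ := exists_unit l (2 * r) (Dvd.dvd.trans ⟨p * q, by ring⟩ hdvd)
  have hα0 : (α : ZMod l) ≠ 0 := α.ne_zero
  have hne : (α : ZMod l) ≠ (α : ZMod l)⁻¹ := by
    intro hc
    have h1 : α ^ 2 = 1 := by
      rw [← Units.val_inv_eq_inv_val, Units.val_inj, eq_inv_iff_mul_eq_one] at hc
      rw [pow_two]
      exact hc
    have h2 := orderOf_dvd_of_pow_eq_one h1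
    rw [hα] at h2
    have h3 := Nat.le_of_dvd (by norm_num) h2
    omega
  have hsub : (α : ZMod l) - (α : ZMod l)⁻¹ ≠ 0 := sub_ne_zero.2 hne
  obtain ⟨A, hA⟩ : ∃ A : ZMod l, A = (α : ZMod l) := ⟨_, rfl⟩
  obtain ⟨A', hA'⟩ : ∃ A' : ZMod l, A' = (α : ZMod l)⁻¹ := ⟨_, rfl⟩
  have hAA : A * A' = 1 := by rw [hA, hA']; exact mul_inv_cancel₀ hα0
  rw [← hA', ← hA] at hsub hne
  obtain ⟨τ, hτ⟩ : ∃ τ : ZMod l, τ = (β : ZMod l) + (β : ZMod l)⁻¹ := ⟨_, rfl⟩
  obtain ⟨σ, hσ⟩ : ∃ σ : ZMod l, σ = (γ : ZMod l) + (γ : ZMod l)⁻¹ := ⟨_, rfl⟩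
  obtain ⟨a, ha⟩ : ∃ a : ZMod l, a = (σ - A' * τ) / (A - A') := ⟨_, rfl⟩
  obtain ⟨d, hd⟩ : ∃ d : ZMod l, d = τ - a := ⟨_, rfl⟩
  have ha' : a * (A - A') = σ - A' * τ := by rw [ha]; exact div_mul_cancel₀ _ hsub
  have hs : A * a + A' * d = σ := by rw [hd]; linear_combination ha'
  have h1 : A * A' - 0 * 0 = 1 := by rw [hAA]; ring
  have h2 : a * d - 1 * (a * d - 1) = 1 := by ring
  have h3 : (A * a) * (A' * d) - (A * 1) * (A' * (a * d - 1)) = 1 := by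
    linear_combination hAA
  refine ⟨Matrix.SpecialLinearGroup (Fin 2) (ZMod l) ⧸
    Subgroup.center (Matrix.SpecialLinearGroup (Fin 2) (ZMod l)), inferInstance, inferInstance,
    QuotientGroup.mk (sl A 0 0 A' h1), QuotientGroup.mk (sl a 1 (a * d - 1) d h2), ?_, ?_, ?_⟩
  · exact order_sl A 0 0 A' h1 α p hα hp (by rw [hA, hA']) (Or.inr hne)
  · exact order_sl a 1 (a * d - 1) d h2 β q hβ hq (by rw [← hτ, hd]; ring) (Or.inl one_ne_zero)
  · have hmul : sl A 0 0 A' h1 * sl a 1 (a * d - 1) d h2 =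
        sl (A * a) (A * 1) (A' * (a * d - 1)) (A' * d) h3 := by
      apply Subtype.ext
      show !![A, 0; 0, A'] * !![a, 1; a * d - 1, d] = !![A * a, A * 1; A' * (a * d - 1), A' * d]
      ext i j
      fin_cases i <;> fin_cases j <;> simp [Matrix.mul_apply, Fin.sum_univ_two]
    rw [← QuotientGroup.mk_mul, hmul]
    refine order_sl _ _ _ _ h3 γ r hγ hr (by rw [← hσ]; exact hs) (Or.inl ?_)
    rw [mul_one, hA]
    exact hα0

end Pool.Agent.Work.MP_7107b3_al.SF
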