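import Pool.Agent.Work.MP_7107b3_al.SF.Stmts

/-!
# MP_7107b3_al, block SF, item GL (helper20): gluing two finite groups along an involution
-/

set_option autoImplicit false

namespace Pool.Agent.Work.MP_7107b3_al.SF

namespace XGL

/-- left multiplication on the first coordinate -/
def a1 (A B : Type) [Group A] : A →* Equiv.Perm (A × B) where
  toFun g := (Equiv.mulLeft g).prodCongr (Equiv.refl B)
  map_one' := by ext ⟨x, y⟩ <;> simp
  map_mul' g h := by ext ⟨x, y⟩ <;> simp [mul_assoc]

/-- left multiplication on the second coordinate -/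
def a2 (A B : Type) [Group B] : B →* Equiv.Perm (A × B) where
  toFun g := (Equiv.refl A).prodCongr (Equiv.mulLeft g)
  map_one' := by ext ⟨x, y⟩ <;> simp
  map_mul' g h := by ext ⟨x, y⟩ <;> simp [mul_assoc]

theorem a1_apply {A B : Type} [Group A] (g : A) (x : A) (y : B) : a1 A B g (x, y) = (g * x, y) := rfl

theorem a2_apply {A B : Type} [Group B] (g : B) (x : A) (y : B) : a2 A B g (x, y) = (x, g * y) := rfl

/-- involutions without fixed points are conjugate -/
theorem conj {S : Type} [Finite S] (σ τ : Equiv.Perm S) (hσ : orderOf σ = 2) (hτ : orderOf τ = 2)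
    (h1 : ∀ s, σ s ≠ s) (h2 : ∀ s, τ s ≠ s) : ∃ c : Equiv.Perm S, c * σ * c⁻¹ = τ := by
  classical
  have : Fintype S := Fintype.ofFinite S
  rw [← isConj_iff, Equiv.Perm.isConj_iff_cycleType_eq]
  obtain ⟨n, hn⟩ := Equiv.Perm.cycleType_prime_order (σ := σ) (by rw [hσ]; exact Nat.prime_two)
  obtain ⟨m, hm⟩ := Equiv.Perm.cycleType_prime_order (σ := τ) (by rw [hτ]; exact Nat.prime_two)
  have s1 : σ.support = Finset.univ := by
    ext s; simp [Equiv.Perm.mem_support, h1 s]
  have s2 : τ.support = Finset.univ := by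
    ext s; simp [Equiv.Perm.mem_support, h2 s]
  have c1 := Equiv.Perm.sum_cycleType σ
  have c2 := Equiv.Perm.sum_cycleType τ
  rw [hn, s1, hσ, Multiset.sum_replicate, smul_eq_mul] at c1
  rw [hm, s2, hτ, Multiset.sum_replicate, smul_eq_mul] at c2
  rw [hn, hm, hσ, hτ]
  have : n + 1 = m + 1 := by omega
  rw [this]

end XGL

/-- Item GL. -/
theorem pr_GL : StGL := by
  intro F₁ F₂ _ _ _ _ u v hu hv
  have i1 : Function.Injective (XGL.a1 F₁ F₂) := by
    intro g h e
    have := congrArg (fun σ : Equiv.Perm (F₁ × F₂) => σ ((1 : F₁), (1 : F₂))) e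
    simpa [XGL.a1_apply] using this
  have i2 : Function.Injective (XGL.a2 F₁ F₂) := by
    intro g h e
    have := congrArg (fun σ : Equiv.Perm (F₁ × F₂) => σ ((1 : F₁), (1 : F₂))) e
    simpa [XGL.a2_apply] using this
  have hu1 : u ≠ 1 := by rintro rfl; simp at hu
  have hv1 : v ≠ 1 := by rintro rfl; simp at hv
  obtain ⟨c, hc⟩ := XGL.conj (XGL.a2 F₁ F₂ v) (XGL.a1 F₁ F₂ u)
    (by rw [orderOf_injective _ i2, hv]) (by rw [orderOf_injective _ i1, hu])
    (by
      rintro ⟨x, y⟩ h
      rw [XGL.a2_apply] at h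
      have := (Prod.ext_iff.mp h).2
      simp at this
      exact hv1 this)
    (by
      rintro ⟨x, y⟩ h
      rw [XGL.a1_apply] at h
      have := (Prod.ext_iff.mp h).1
      simp at this
      exact hu1 this)
  refine ⟨Equiv.Perm (F₁ × F₂), inferInstance, inferInstance, XGL.a1 F₁ F₂,
    (MulAut.conj c).toMonoidHom.comp (XGL.a2 F₁ F₂), i1, ?_, ?_⟩
  · exact (MulAut.conj c).injective.comp i2
  · show XGL.a1 F₁ F₂ u = c * XGL.a2 F₁ F₂ v * c⁻¹
    exact hc.symm

end Pool.Agent.Work.MP_7107b3_al.SF
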