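import Pool.Agent.Work.MP_7107b3_al.SF.Stmts

/-!
[7107b3 SF NI] A crossed homomorphism which is not inner gives a virtual map onto the integers.
-/

set_option autoImplicit false

namespace Pool.Agent.Work.MP_7107b3_al.SF

namespace XNI

/-- A nonzero additive function gives a surjection onto the integers. -/
theorem surj {N : Type} [Group N] (h : N → ℤ) (hadd : ∀ a b, h (a * b) = h a + h b) (g : N)
    (hg : h g ≠ 0) : ∃ f : N →* Multiplicative ℤ, Function.Surjective f := by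
  have h1 : h 1 = 0 := by
    have := hadd 1 1
    rw [mul_one] at this
    omega
  have hinv : ∀ a, h a⁻¹ = - h a := by
    intro a
    have := hadd a a⁻¹
    rw [mul_inv_cancel, h1] at this
    omega
  let H : AddSubgroup ℤ :=
    { carrier := Set.range h
      add_mem' := by
        rintro _ _ ⟨a, rfl⟩ ⟨b, rfl⟩
        exact ⟨a * b, hadd a b⟩
      zero_mem' := ⟨1, h1⟩
      neg_mem' := by
        rintro _ ⟨a, rfl⟩
        exact ⟨a⁻¹, hinv a⟩ }
  obtain ⟨d, hd⟩ := Int.subgroup_cyclic H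
  have hmem : ∀ a, ∃ n : ℤ, n * d = h a := by
    intro a
    have h2 : h a ∈ H := ⟨a, rfl⟩
    rw [hd, AddSubgroup.mem_closure_singleton] at h2
    obtain ⟨n, hn⟩ := h2
    exact ⟨n, by rw [← hn, smul_eq_mul]⟩
  have hd0 : d ≠ 0 := by
    intro h0
    obtain ⟨n, hn⟩ := hmem g
    rw [h0, mul_zero] at hn
    exact hg hn.symm
  choose k hk using hmem
  have hkadd : ∀ a b, k (a * b) = k a + k b := by
    intro a b
    have h3 : k (a * b) * d = (k a + k b) * d := by
      rw [hk, hadd, add_mul, hk, hk]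
    exact mul_right_cancel₀ hd0 h3
  refine ⟨MonoidHom.mk' (fun a => Multiplicative.ofAdd (k a)) ?_, ?_⟩
  · intro a b
    change Multiplicative.ofAdd (k (a * b)) = Multiplicative.ofAdd (k a) * Multiplicative.ofAdd (k b)
    rw [hkadd, ofAdd_add]
  · have hdm : d ∈ H := by
      rw [hd]
      exact AddSubgroup.subset_closure rfl
    obtain ⟨c, hc⟩ := hdm
    have hkc : k c = 1 := by
      have h4 := hk c
      rw [hc] at h4
      have h5 : k c * d = 1 * d := by rw [h4, one_mul]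
      exact mul_right_cancel₀ hd0 h5
    intro z
    refine ⟨c ^ (Multiplicative.toAdd z), ?_⟩
    rw [map_zpow]
    change Multiplicative.ofAdd (k c) ^ (Multiplicative.toAdd z) = z
    rw [hkc, ← ofAdd_zsmul, smul_eq_mul, mul_one]
    rfl

end XNI

theorem pr_NI : StNI := by
  classical
  intro G F _ _ _ ρ D hD hnin
  by_contra hVZ
  have h0 : ∀ g, ρ g = 1 → D g = 0 := by
    intro g hg
    by_contra hne
    obtain ⟨s, hs⟩ : ∃ s, D g s ≠ 0 := by
      by_contra hcon
      push Not at hcon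
      exact hne (funext hcon)
    apply hVZ
    refine ⟨ρ.ker, inferInstance, ?_⟩
    refine XNI.surj (fun x : ρ.ker => D x s) ?_ ⟨g, hg⟩ hs
    intro a b
    have ha : ρ (a : G) = 1 := a.2
    change D ((a : G) * (b : G)) s = D a s + D b s
    rw [hD, ha]
    simp [act]
  have hdep : ∀ g g', ρ g = ρ g' → D g = D g' := by
    intro g g' hgg
    have h1 : ρ (g⁻¹ * g') = 1 := by
      rw [map_mul, map_inv, hgg, inv_mul_cancel]
    have h2 := hD g (g⁻¹ * g')
    rw [mul_inv_cancel_left, h0 _ h1] at h2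
    rw [h2]
    funext s
    simp [act]
  -- the function on the range
  obtain ⟨d, hd⟩ : ∃ d : F → F → ℤ, ∀ g, d (ρ g) = D g := by
    refine ⟨fun y => if h : ∃ g, ρ g = y then D h.choose else 0, fun g => ?_⟩
    have hex : ∃ g', ρ g' = ρ g := ⟨g, rfl⟩
    simp only [dif_pos hex]
    exact hdep _ _ hex.choose_spec
  obtain ⟨R, hR⟩ : ∃ R : Finset F, ∀ y, y ∈ R ↔ ∃ g, ρ g = y :=
    ⟨Finset.univ.filter (fun y => ∃ g, ρ g = y), fun y => by simp⟩
  have hR1 : (1 : F) ∈ R := (hR 1).2 ⟨1, map_one ρ⟩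
  have hm : (R.card : ℚ) ≠ 0 := by
    have : 0 < R.card := Finset.card_pos.2 ⟨1, hR1⟩
    exact_mod_cast this.ne'
  have hsum : ∀ g s, ∑ y ∈ R, d y ((ρ g)⁻¹ * s) = ∑ y ∈ R, d y s - (R.card : ℤ) * D g s := by
    intro g s
    have h1 : ∑ y ∈ R, d y s = ∑ y ∈ R, d (ρ g * y) s := by
      symm
      apply Finset.sum_bij (fun y _ => ρ g * y)
      · intro y hy
        obtain ⟨x, hx⟩ := (hR y).1 hy
        exact (hR _).2 ⟨g * x, by rw [map_mul, hx]⟩
      · intro a _ b _ hab
        exact mul_left_cancel hab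
      · intro b hb
        obtain ⟨x, hx⟩ := (hR b).1 hb
        exact ⟨(ρ g)⁻¹ * b, (hR _).2 ⟨g⁻¹ * x, by rw [map_mul, map_inv, hx]⟩, by simp⟩
      · intro a _
        rfl
    have h2 : ∀ y ∈ R, d (ρ g * y) s = D g s + d y ((ρ g)⁻¹ * s) := by
      intro y hy
      obtain ⟨x, hx⟩ := (hR y).1 hy
      rw [← hx, ← map_mul, hd, hd, hD]
      rfl
    rw [h1, Finset.sum_congr rfl h2, Finset.sum_add_distrib, Finset.sum_const, nsmul_eq_mul]
    ring
  apply hnin
  refine ⟨fun s => -((∑ y ∈ R, d y s : ℤ) : ℚ) / (R.card : ℚ), ?_⟩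
  intro g s
  have h3 : ((∑ y ∈ R, d y ((ρ g)⁻¹ * s) : ℤ) : ℚ) =
      ((∑ y ∈ R, d y s : ℤ) : ℚ) - (R.card : ℚ) * (D g s : ℚ) := by
    rw [hsum g s]
    push_cast
    ring
  simp only [act]
  rw [h3]
  field_simp
  ring

end Pool.Agent.Work.MP_7107b3_al.SF
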