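import Mathlib

/-!
# MP_7107b3_al, block SF: amalgams with a Seifert fibred piece (definitions and statements of the items)

The docstring of an item is its complete proof. Item `XX`: file `SF/I_XX.lean`, theorem `pr_XX`.
-/

set_option autoImplicit false

namespace Pool.Agent.Work.MP_7107b3_al.SF

/-- Some subgroup of finite index maps onto the integers (the conclusion of Q1). -/
def VZ (G : Type) [Group G] : Prop :=
  ∃ H : Subgroup G, H.FiniteIndex ∧ ∃ f : H →* Multiplicative ℤ, Function.Surjective f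

/-- The relations `x_i ^ p_i = h ^ a_i` and `x_i h = h x_i` (`x_i = of (some i)`, `h = of none`). -/
def rels {k : ℕ} (p : Fin k → ℕ) (a : Fin k → ℤ) : Set (FreeGroup (Option (Fin k))) :=
  {w | ∃ i : Fin k, w = FreeGroup.of (some i) ^ p i * (FreeGroup.of none ^ a i)⁻¹ ∨
    w = FreeGroup.of (some i) * FreeGroup.of none * (FreeGroup.of (some i))⁻¹ * (FreeGroup.of none)⁻¹}

/-- The fundamental group of the Seifert fibred space over the disc with exceptional fibres of type
`(p_i, a_i)`. -/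
abbrev Seif {k : ℕ} (p : Fin k → ℕ) (a : Fin k → ℤ) : Type := PresentedGroup (rels p a)

/-- The regular fibre. -/
def fib {k : ℕ} (p : Fin k → ℕ) (a : Fin k → ℤ) : Seif p a := PresentedGroup.of none

/-- The boundary curve `x_1 ⋯ x_k` of the disc. -/
def bd {k : ℕ} (p : Fin k → ℕ) (a : Fin k → ℤ) : Seif p a :=
  (List.ofFn fun i => (PresentedGroup.of (some i) : Seif p a)).prod

/-- The action of a group element on a function on the group: `(g v) s = v (g⁻¹ s)`. -/
def act {F : Type} [Group F] {R : Type} (g : F) (v : F → R) : F → R := fun s => v (g⁻¹ * s)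

/-- The value of the crossed homomorphism with `x_i ↦ a_i` at `x_1 ⋯ x_k`:
`∑_i (X_1 ⋯ X_(i-1)) a_i`. -/
def bval {F : Type} [Group F] {k : ℕ} (X : Fin k → F) (a : Fin k → F → ℤ) : F → ℤ :=
  ∑ i : Fin k, act ((List.ofFn X).take i).prod (a i)

/-- FX (MEDIUM; no hypotheses). Fox: triples of exact orders. PROOF. Let `ℓ` be a prime with `ℓ ≡ 1 mod 2 p q r`, `ℓ > 2`
(`Nat.exists_prime_gt_modEq_one`), `K = ZMod ℓ`, and let `α, β, γ ∈ Kˣ` have orders `2p, 2q, 2r` (the group of units is cyclic of order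
`ℓ - 1`). In `SL_2(K)` put `x = [[α, 1], [0, α⁻¹]]`, `y = [[β, 0], [t, β⁻¹]]`; the trace of `x y` is `α β + t + (α β)⁻¹`; choose `t` so that it is
`γ + γ⁻¹`. `α ≠ α⁻¹` (order `2p ≥ 4`), so `x` is conjugate in `GL_2(K)` to `diag(α, α⁻¹)`; likewise `y` and `x y` (characteristic polynomial
`(T - γ)(T - γ⁻¹)`, `γ ≠ γ⁻¹`). So `x^j = ± 1` iff `α^j = ± 1` iff `p ∣ j` (`α^p = -1`). Take `F = SL_2(K)` modulo its subgroup
`{1, -1}` (the centre, finite group): the images have orders `p, q, r`. (Conjugation can be avoided: for a 2 by 2 matrix `M` with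
`M² = τ M - 1`, `τ = α + α⁻¹`, one has `M^j = s_j M - s_(j-1)`, `s_j = (α^j - α^(-j)) / (α - α⁻¹)`; so if `α^(2j) = 1` then `M^j = ± 1`, and
if `M^j` is a scalar and `M` is not then `s_j = 0`.) -/
def StFX : Prop := ∀ p q r : ℕ, 2 ≤ p → 2 ≤ q → 2 ≤ r →
  ∃ (F : Type) (_ : Group F) (_ : Finite F) (x y : F), orderOf x = p ∧ orderOf y = q ∧ orderOf (x * y) = r

/-- GL (EASY-MEDIUM; no hypotheses). Gluing two finite groups along an involution. PROOF. `S = F₁ × F₂`, `F = Equiv.Perm S`. `F₁` acts on `S` by left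
multiplication on the first coordinate, `F₂` on the second one; both actions are faithful: injective `i₁ : F₁ →* F`, `i₂ : F₂ →* F`.
`i₁ u` and `i₂ v` are involutions without fixed points, so both have the cycle type `replicate (card S / 2) 2`
(`Equiv.Perm.cycleType_of_...`, all cycles have length 2 as the order is 2: `Equiv.Perm.cycleType_prime_order`, the sum is `card S`), so they
are conjugate (`Equiv.Perm.isConj_iff_cycleType_eq`): compose `i₂` with the conjugation. -/
def StGL : Prop := ∀ (F₁ F₂ : Type) [Group F₁] [Group F₂] [Finite F₁] [Finite F₂] (u : F₁) (v : F₂),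
  orderOf u = 2 → orderOf v = 2 → ∃ (F : Type) (_ : Group F) (_ : Finite F) (i₁ : F₁ →* F) (i₂ : F₂ →* F),
    Function.Injective i₁ ∧ Function.Injective i₂ ∧ i₁ u = i₂ v

/-- FN (EASY-MEDIUM; hypotheses hFX hGL). Finite groups with prescribed orders. PROOF. Claim (induction on `k ≥ 2`): for all `p_i ≥ 2` (`i < k`) and
`r ≥ 2` there is such a group. `k = 2` is FX. Step from `k` to `k + 1`: `F₁` for `p_0, .., p_(k-1)` and product of order `2`; `F₂` of FX for
`(2, p_k, r)`: `u' , y` of orders `2, p_k`, `u' y` of order `r`. Glue with GL: `u = x_0 ⋯ x_(k-1) = u'` (`List.ofFn_succ'`,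
`List.prod_append` or `Fin.snoc`). If `r = 1` the numerical condition gives `k ≥ 3`: take the group for `p_0, .., p_(k-2)` and
`r' = p_(k-1)`, and `X_(k-1) = (X_0 ⋯ X_(k-2))⁻¹`. (For `r ≥ 2` the numerical condition gives `k ≥ 2`.) -/
def StFN : Prop := ∀ (k : ℕ) (p : Fin k → ℕ) (r : ℕ), (∀ i, 2 ≤ p i) → 1 ≤ r →
  ∑ i, (1 : ℚ) / p i + 1 / r ≤ (k : ℚ) - 1 →
  ∃ (F : Type) (_ : Group F) (_ : Fintype F) (X : Fin k → F), (∀ i, orderOf (X i) = p i) ∧ orderOf (List.ofFn X).prod = r

/-- DM (MEDIUM; no hypotheses). The dimension count. PROOF. `V = F → ℚ`, `n = card F`. For `g ∈ F` of order `m` the map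
`N_g = ∑_(j < m) act (g^j)` on `V` has its image in the functions invariant under `g`, a space of dimension `n / m` (the number of the cosets of
`zpowers g`; functions on the quotient). So `dim ker N_g ≥ n - n / m`. Let `Z` be the space of all `a ∈ V^k` with `N_(X_i) a_i = 0` for
all `i` and `N_X (bval a) = 0`, `X = X_1 ⋯ X_k`: it is the kernel of a linear map from `V^k` into the product of the images of
the `N_(X_i)` and of `N_X`, so `dim Z ≥ k n - ∑ n / p_i - n / r ≥ n`. The space of the `(act (X_i) v - v)_i`, `v ∈ V`, has dimension `≤ n - 1` (the constants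
give `0`). So there is `a ∈ Z` which is not of this form; multiply by a common denominator of all values. -/
def StDM : Prop := ∀ (F : Type) [Group F] [Fintype F] (k : ℕ) (X : Fin k → F) (p : Fin k → ℕ) (r : ℕ),
  (∀ i, orderOf (X i) = p i) → orderOf (List.ofFn X).prod = r → ∑ i, (1 : ℚ) / p i + 1 / r ≤ (k : ℚ) - 1 →
  ∃ a : Fin k → F → ℤ, (∀ i, ∑ j ∈ Finset.range (p i), act (X i ^ j) (a i) = 0) ∧
    ∑ j ∈ Finset.range r, act ((List.ofFn X).prod ^ j) (bval X a) = 0 ∧
    ¬ ∃ v : F → ℚ, ∀ i s, (a i s : ℚ) = act (X i) v s - v s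

/-- NI (EASY-MEDIUM; no hypotheses). A crossed homomorphism which is not inner. PROOF. `N = ρ.ker` has finite index. On `N`
the map `D` is additive, `D (g h) s = D g s + D h s`. If `D g = 0` for all `g ∈ N` then `D g` depends only on `ρ g` (`D (g n) = D g`). Let
`R` be the (finite) range of `ρ`, `m` its cardinality, and for `y ∈ R` let `d y = D g`, `ρ g = y`. `u = ∑_(y ∈ R) d y`: for `g ∈ G`
`act (ρ g) u = ∑_y (d (ρ g * y) - D g) = u - m D g`, so `D g = v - act (ρ g) v` with `v = u / m`, and with `- v` in place of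
`v` this contradicts the hypothesis. So `D g s ≠ 0` for some `g ∈ N`, `s ∈ F`: `g ↦ D g s` is a homomorphism from `N` to the integers
which is not zero; its range is `d ℤ`, `d ≠ 0` (`Int.subgroup_cyclic` or `AddSubgroup` of `ℤ`); divide by `d`. -/
def StNI : Prop := ∀ (G F : Type) [Group G] [Group F] [Fintype F] (ρ : G →* F) (D : G → F → ℤ),
  (∀ g h : G, D (g * h) = D g + act (ρ g) (D h)) →
  (¬ ∃ v : F → ℚ, ∀ g s, (D g s : ℚ) = act (ρ g) v s - v s) → VZ G

/-- CR (EASY-MEDIUM; no hypotheses). The crossed homomorphism on the amalgam. PROOF. Let `E` be the group of the pairs `(v, g)`, `v : F → ℤ`, `g ∈ F`,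
with `(v, g) (w, h) = (v + act g w, g h)` (a semidirect product, or define the group structure by hand; or the group of the
permutations `w ↦ v + act g w`, `s ↦ g s` of `(F → ℤ) × F`). `ξ_i = (a_i, X_i)`: `ξ_i ^ m = (∑_(j < m) act (X_i ^ j) a_i, X_i ^ m)`, so `ξ_i ^ p_i = 1`. So there is a
homomorphism `Seif p a' →* E`, `x_i ↦ ξ_i`, `h ↦ 1` (`PresentedGroup.toGroup`), which maps `bd` to
`ξ = ξ_1 ⋯ ξ_k = (bval X a, X_1 ⋯ X_k)`, and `ξ ^ r = 1`. On the other side `K false →* Multiplicative (ZMod r) →* E`, the second map sends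
the generator to `ξ` (`ZMod.lift` with `zmultiplesHom`). On `C` both maps are `c ↦ ξ ^ m`. `Monoid.PushoutI.lift` gives `Φ : G →* E`; `ρ` and `D` are its
two coordinates, and the value at the image of `x_i` is `(a_i, X_i)`. -/
def StCR : Prop := ∀ (F : Type) [Group F] [Fintype F] (k : ℕ) (X : Fin k → F) (p : Fin k → ℕ) (a' : Fin k → ℤ) (r : ℕ)
  (a : Fin k → F → ℤ) (K : Bool → Type) [∀ b, Group (K b)] (C : Type) [Group C] (φ : ∀ b, C →* K b)
  (e : K true ≃* Seif p a') (ψ : K false →* Multiplicative (ZMod r)),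
  (∀ i, orderOf (X i) = p i) → orderOf (List.ofFn X).prod = r →
  (∀ i, ∑ j ∈ Finset.range (p i), act (X i ^ j) (a i) = 0) →
  ∑ j ∈ Finset.range r, act ((List.ofFn X).prod ^ j) (bval X a) = 0 →
  (∀ c : C, ∃ m n : ℤ, e (φ true c) = bd p a' ^ m * fib p a' ^ n ∧
    ψ (φ false c) = Multiplicative.ofAdd (m : ZMod r)) →
  ∃ (ρ : Monoid.PushoutI φ →* F) (D : Monoid.PushoutI φ → F → ℤ),
    (∀ g h, D (g * h) = D g + act (ρ g) (D h)) ∧ ∀ i : Fin k, ∃ g, ρ g = X i ∧ D g = a i

/-- FIN (EASY; hypotheses hFN hDM hNI hCR). THE THEOREM. PROOF. `F, X` from FN, `a` from DM, `ρ, D` from CR, NI. -/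
def StFIN : Prop := ∀ (k : ℕ) (p : Fin k → ℕ) (a' : Fin k → ℤ) (r : ℕ), (∀ i, 2 ≤ p i) → 1 ≤ r →
  ∑ i, (1 : ℚ) / p i + 1 / r ≤ (k : ℚ) - 1 →
  ∀ (K : Bool → Type) [∀ b, Group (K b)] (C : Type) [Group C] (φ : ∀ b, C →* K b)
  (e : K true ≃* Seif p a') (ψ : K false →* Multiplicative (ZMod r)),
  (∀ c : C, ∃ m n : ℤ, e (φ true c) = bd p a' ^ m * fib p a' ^ n ∧
    ψ (φ false c) = Multiplicative.ofAdd (m : ZMod r)) →
  VZ (Monoid.PushoutI φ)

end Pool.Agent.Work.MP_7107b3_al.SF
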